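import Pool.Agent.H49.SDP.Targets

/-!
# PARM3S: choice of the parameters for width 3, semidefinite version (helper19)
-/

namespace Pool.Agent.H19.SDP

open Finset Pool.Agent.H49.SDP

theorem pf_PARM3S : S_PARM3S := by
  intro R0 E B0 hR hE
  obtain ⟨q, hq⟩ : ∃ q : ℕ, q = 4 * 2 ^ (72 * E) := ⟨_, rfl⟩
  obtain ⟨A, hA⟩ : ∃ A : ℕ, A = 32768 * (R0 * (2 * q) ^ 3) ^ 5 := ⟨_, rfl⟩
  have h2E : 1 ≤ 2 ^ (72 * E) := Nat.one_le_two_pow
  have hq4 : 4 ≤ q := by omega
  have hqR : (0 : ℝ) < q := by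
    have : 0 < q := by omega
    exact_mod_cast this
  refine ⟨q, 4 * R0, 1 / (6 * q), 1 / q, hq4, by positivity, by positivity,
    q * (B0 + 9 * E + 23 + 4 * A), ?_⟩
  intro n hn
  have hB : B0 + 9 * E + 23 + 4 * A ≤ n / q :=
    (Nat.le_div_iff_mul_le (by omega)).2 (by rw [mul_comm]; exact hn)
  have hBn' : n / q * q ≤ n := Nat.div_mul_le_self n q
  have hnB' : n < q * (n / q + 1) := Nat.lt_mul_div_succ n (by omega)
  generalize n / q = B at hB hBn' hnB'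
  refine ⟨B, by omega, by omega, (Nat.le_div_iff_mul_le hE).2 (by omega), hBn', ?_, ?_⟩
  · have h1 : B ≤ n := by
      calc B = B * 1 := (mul_one B).symm
        _ ≤ B * q := Nat.mul_le_mul_left B (by omega)
        _ ≤ n := hBn'
    calc 4 * (R0 * B) = 4 * R0 * B := by ring
      _ ≤ 4 * R0 * n := Nat.mul_le_mul_left _ h1
  · intro W N Y hY hW h
    have hx : (0 : ℝ) < (2 : ℝ) ^ (-(1 / (6 * (q : ℝ)) * n)) := by positivity
    have hnR : (n : ℝ) / q ≤ ((B + 1 : ℕ) : ℝ) := by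
      rw [div_le_iff₀ hqR]
      have : n ≤ (B + 1) * q := by rw [mul_comm]; exact hnB'.le
      exact_mod_cast this
    have hx3 : 1 ≤ ((2 : ℝ) ^ (-(1 / (6 * (q : ℝ)) * n))) ^ 6 * (2 : ℝ) ^ (B + 1) := by
      rw [← Real.rpow_natCast, ← Real.rpow_natCast (2 : ℝ) (B + 1),
        ← Real.rpow_mul (by norm_num : (0 : ℝ) ≤ 2),
        ← Real.rpow_add (by norm_num : (0 : ℝ) < 2)]
      refine Real.one_le_rpow (by norm_num) ?_
      have e : -(1 / (6 * (q : ℝ)) * n) * ((6 : ℕ) : ℝ) = -((n : ℝ) / q) := by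
        push_cast
        field_simp
      rw [e]
      linarith
    have hWB : (2 : ℝ) ^ (1 / (q : ℝ) * n) ≤ 2 * (2 : ℝ) ^ B := by
      calc (2 : ℝ) ^ (1 / (q : ℝ) * n) ≤ (2 : ℝ) ^ (((B + 1 : ℕ) : ℝ)) := by
            refine Real.rpow_le_rpow_of_exponent_le (by norm_num) ?_
            rw [one_div_mul_eq_div]
            exact hnR
        _ = 2 * (2 : ℝ) ^ B := by rw [Real.rpow_natCast, pow_succ]; ring
    have hqp : ((2 : ℝ) ^ B) ^ 12 ≤ ((q : ℝ) / 4) ^ ((B / E) / 3 / 2 + 1) := by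
      have e1 : (q : ℝ) / 4 = (2 : ℝ) ^ (72 * E) := by
        rw [hq]; push_cast; ring
      rw [e1, ← pow_mul, ← pow_mul]
      refine pow_le_pow_right₀ (by norm_num) ?_
      have h1 : B < E * 3 * 2 * (B / (E * 3 * 2) + 1) := Nat.lt_mul_div_succ B (by omega)
      rw [Nat.div_div_eq_div_mul, Nat.div_div_eq_div_mul, ← Nat.mul_assoc E 3 2]
      calc B * 12 ≤ E * 3 * 2 * (B / (E * 3 * 2) + 1) * 12 := Nat.mul_le_mul_right 12 h1.le
        _ = 72 * E * (B / (E * 3 * 2) + 1) := by ring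
    have hu1 : ((B : ℝ)) ^ 5 ≤ (2 : ℝ) ^ B := by
      have : B ^ 5 ≤ 2 ^ B := by
        have hB4 : 23 ≤ B := by omega
        clear * - hB4
        induction B, hB4 using Nat.le_induction with
        | base => norm_num
        | succ b hb ih =>
          have h1 : (b + 1) ^ 5 ≤ 2 * b ^ 5 := by
            obtain ⟨m, rfl⟩ : ∃ m, b = 23 + m := ⟨b - 23, by omega⟩
            have e : (23 + m + 1) ^ 5 + (4910062 + 1139530 * m + 105100 * m ^ 2 + 4820 * m ^ 3 +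
                110 * m ^ 4 + m ^ 5) = 2 * (23 + m) ^ 5 := by ring
            exact e ▸ Nat.le_add_right _ _
          calc (b + 1) ^ 5 ≤ 2 * b ^ 5 := h1
            _ ≤ 2 * 2 ^ b := Nat.mul_le_mul_left 2 ih
            _ = 2 ^ (b + 1) := by ring
      exact_mod_cast this
    have hu2 : 4 * (A : ℝ) ≤ (2 : ℝ) ^ B := by
      have : 4 * A ≤ 2 ^ B := by
        have := Nat.lt_two_pow_self (n := B)
        omega
      exact_mod_cast this
    have hAR : (32768 : ℝ) * (((R0 * B : ℕ) : ℝ) * (2 * (q : ℝ)) ^ 3) ^ 5 = A * (B : ℝ) ^ 5 := by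
      rw [hA]; push_cast; ring
    have h16 : (256 : ℝ) ^ B = ((2 : ℝ) ^ B) ^ 8 := by
      rw [← pow_mul, mul_comm, pow_mul]; norm_num
    rw [hAR, h16] at h
    have h2B : (2 : ℝ) ^ (B + 1) = 2 * (2 : ℝ) ^ B := by rw [pow_succ]; ring
    rw [h2B] at hx3
    have hWu := hW.trans hWB
    have hu0 : (0 : ℝ) < (2 : ℝ) ^ B := by positivity
    generalize (2 : ℝ) ^ (-(1 / (6 * (q : ℝ)) * n)) = x at h hx hx3 ⊢
    generalize (2 : ℝ) ^ B = u at h hx3 hWu hqp hu1 hu2 hu0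
    rcases lt_or_ge N 0 with hN | hN
    · exact hN.le.trans (mul_nonneg hx.le hY)
    · have s1 : x ^ 5 * N * u ^ 12 ≤ A * (B : ℝ) ^ 5 * u ^ 8 * (2 * u) * Y := by
        refine (mul_le_mul_of_nonneg_left hqp (by positivity)).trans (h.trans ?_)
        refine mul_le_mul_of_nonneg_right ?_ hY
        exact mul_le_mul_of_nonneg_left hWu (by positivity)
      have s2 : 4 * (A * (B : ℝ) ^ 5) ≤ u ^ 2 := by
        calc 4 * (A * (B : ℝ) ^ 5) = (4 * A) * (B : ℝ) ^ 5 := by ring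
          _ ≤ u * u := mul_le_mul hu2 hu1 (by positivity) hu0.le
          _ = u ^ 2 := by ring
      have s3 : A * (B : ℝ) ^ 5 * u ^ 8 * (2 * u) ≤ u ^ 12 * x ^ 6 := by
        have h2u : 0 < 2 * u := by positivity
        refine le_of_mul_le_mul_right ?_ h2u
        calc A * (B : ℝ) ^ 5 * u ^ 8 * (2 * u) * (2 * u)
            = 4 * (A * (B : ℝ) ^ 5) * u ^ 10 := by ring
          _ ≤ u ^ 2 * u ^ 10 := mul_le_mul_of_nonneg_right s2 (by positivity)
          _ = u ^ 12 * 1 := by ring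
          _ ≤ u ^ 12 * (x ^ 6 * (2 * u)) := mul_le_mul_of_nonneg_left hx3 (by positivity)
          _ = u ^ 12 * x ^ 6 * (2 * u) := by ring
      have hp : 0 < x ^ 5 * u ^ 12 := by positivity
      refine le_of_mul_le_mul_left ?_ hp
      calc x ^ 5 * u ^ 12 * N = x ^ 5 * N * u ^ 12 := by ring
        _ ≤ A * (B : ℝ) ^ 5 * u ^ 8 * (2 * u) * Y := s1
        _ ≤ u ^ 12 * x ^ 6 * Y := mul_le_mul_of_nonneg_right s3 hY
        _ = x ^ 5 * u ^ 12 * (x * Y) := by ring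

end Pool.Agent.H19.SDP
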